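import Mathlib

/-!
# Three compact metric spaces without simultaneous optimal correspondences (MP_029391_gt, Q1)

The three spaces have four points each. The distances are `d(0,1) = 100`, `d(2,3) = 120`,
`d(0,2) = 140 + x`, `d(1,3) = 140 - x`, `d(0,3) = 160 + y`, `d(1,2) = 160 - y` with
`(x,y) = (3,-1), (2,2), (-1,3)`.
-/

open Set

namespace Pool.Agent.Results.MP_029391_gt.NoSimultaneous

section defs

variable {X Y : Type} [MetricSpace X] [MetricSpace Y]

/-- `S` is a correspondence between `X` and `Y`. -/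
def IsCorrespondence (S : Set (X × Y)) : Prop :=
  Prod.fst '' S = univ ∧ Prod.snd '' S = univ

/-- The distortion of `S`. -/
noncomputable def dis (S : Set (X × Y)) : ℝ :=
  sSup {r : ℝ | ∃ p ∈ S, ∃ q ∈ S, r = |dist p.1 q.1 - dist p.2 q.2|}

variable (X Y) in
/-- The Gromov-Hausdorff distance, defined by correspondences. -/
noncomputable def ghDist : ℝ :=
  1 / 2 * sInf {r : ℝ | ∃ S : Set (X × Y), IsCorrespondence S ∧ r = dis S}

/-- `S` is an optimal correspondence between `X` and `Y`. -/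
def IsOptimal (S : Set (X × Y)) : Prop :=
  IsCorrespondence S ∧ dis S = 2 * ghDist X Y

end defs

/-- The projection `e₁₂(R)`. -/
def e12 {X₁ X₂ X₃ : Type} (R : Set (X₁ × X₂ × X₃)) : Set (X₁ × X₂) :=
  (fun r => (r.1, r.2.1)) '' R

/-- The projection `e₁₃(R)`. -/
def e13 {X₁ X₂ X₃ : Type} (R : Set (X₁ × X₂ × X₃)) : Set (X₁ × X₃) :=
  (fun r => (r.1, r.2.2)) '' R

/-- The projection `e₂₃(R)`. -/
def e23 {X₁ X₂ X₃ : Type} (R : Set (X₁ × X₂ × X₃)) : Set (X₂ × X₃) :=
  (fun r => (r.2.1, r.2.2)) '' R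

section spaces

/-- The integer distance matrices of the three spaces. -/
def D (k : Fin 3) : Fin 4 → Fin 4 → ℤ :=
  match k with
  | 0 => ![![0, 100, 143, 159], ![100, 0, 161, 137], ![143, 161, 0, 120], ![159, 137, 120, 0]]
  | 1 => ![![0, 100, 142, 162], ![100, 0, 158, 138], ![142, 158, 0, 120], ![162, 138, 120, 0]]
  | 2 => ![![0, 100, 139, 163], ![100, 0, 157, 141], ![139, 157, 0, 120], ![163, 141, 120, 0]]

theorem D_self : ∀ k i, D k i i = 0 := by decide
theorem D_comm : ∀ k i j, D k i j = D k j i := by decide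
theorem D_triangle : ∀ k i j l, D k i l ≤ D k i j + D k j l := by decide
theorem D_ne : ∀ k i j, i ≠ j → 100 ≤ D k i j := by decide
theorem D_le : ∀ k i j, D k i j ≤ 200 := by decide
theorem D_nonneg : ∀ k i j, 0 ≤ D k i j := by decide

/-- The three four-point spaces. -/
def Sp (_ : Fin 3) : Type := Fin 4

noncomputable instance (k : Fin 3) : MetricSpace (Sp k) where
  dist i j := (D k i j : ℝ)
  dist_self i := by
    show ((D k i i : ℤ) : ℝ) = 0
    exact_mod_cast D_self k i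
  dist_comm i j := by
    show ((D k i j : ℤ) : ℝ) = (D k j i : ℤ)
    exact_mod_cast D_comm k i j
  dist_triangle i j l := by
    show ((D k i l : ℤ) : ℝ) ≤ (D k i j : ℤ) + (D k j l : ℤ)
    exact_mod_cast D_triangle k i j l
  eq_of_dist_eq_zero {i j} h := by
    by_contra hne
    have h1 := D_ne k i j hne
    have h2 : ((D k i j : ℤ) : ℝ) = 0 := h
    have h3 : D k i j = 0 := by exact_mod_cast h2
    omega

theorem dist_def (k : Fin 3) (i j : Sp k) : dist i j = (D k i j : ℝ) := rfl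

instance (k : Fin 3) : Finite (Sp k) := inferInstanceAs (Finite (Fin 4))
instance (k : Fin 3) : Nonempty (Sp k) := inferInstanceAs (Nonempty (Fin 4))

theorem le_dis {k l : Fin 3} (S : Set (Sp k × Sp l)) {p q : Sp k × Sp l} (hp : p ∈ S)
    (hq : q ∈ S) : |(D k p.1 q.1 : ℝ) - D l p.2 q.2| ≤ dis S := by
  apply le_csSup
  · refine ⟨200, ?_⟩
    rintro r ⟨p, -, q, -, rfl⟩
    rw [dist_def, dist_def, abs_le]
    have h1 : (D k p.1 q.1 : ℝ) ≤ 200 := by exact_mod_cast D_le k p.1 q.1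
    have h2 : (D l p.2 q.2 : ℝ) ≤ 200 := by exact_mod_cast D_le l p.2 q.2
    have h3 : (0 : ℝ) ≤ D k p.1 q.1 := by exact_mod_cast D_nonneg k p.1 q.1
    have h4 : (0 : ℝ) ≤ D l p.2 q.2 := by exact_mod_cast D_nonneg l p.2 q.2
    constructor <;> linarith
  · exact ⟨p, hp, q, hq, rfl⟩

/-- The graph of a map. -/
def graph {k l : Fin 3} (f : Fin 4 → Fin 4) : Set (Sp k × Sp l) := {p | p.2 = f p.1}

theorem dis_graph_le {k l : Fin 3} (f : Fin 4 → Fin 4) (c : ℤ)
    (h : ∀ i j, |D k i j - D l (f i) (f j)| ≤ c) :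
    dis (graph f : Set (Sp k × Sp l)) ≤ c := by
  apply csSup_le
  · exact ⟨_, ((0 : Fin 4), f 0), rfl, ((0 : Fin 4), f 0), rfl, rfl⟩
  · rintro r ⟨p, hp, q, hq, rfl⟩
    have hp' : p.2 = f p.1 := hp
    have hq' : q.2 = f q.1 := hq
    rw [dist_def, dist_def, hp', hq']
    exact_mod_cast h p.1 q.1

theorem optimal_le {k l : Fin 3} {S : Set (Sp k × Sp l)} (hS : IsOptimal S) (f : Fin 4 → Fin 4)
    (hf : Function.Surjective f) (c : ℤ) (h : ∀ i j, |D k i j - D l (f i) (f j)| ≤ c) :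
    dis S ≤ c := by
  refine le_trans ?_ (dis_graph_le f c h)
  rw [hS.2, ghDist]
  have : sInf {r : ℝ | ∃ S : Set (Sp k × Sp l), IsCorrespondence S ∧ r = dis S} ≤
      dis (graph f : Set (Sp k × Sp l)) := by
    apply csInf_le
    · refine ⟨0, ?_⟩
      rintro r ⟨S, hS, rfl⟩
      obtain ⟨p, hp⟩ : S.Nonempty := by
        have : (0 : Fin 4) ∈ Prod.fst '' S := by rw [hS.1]; trivial
        obtain ⟨p, hp, -⟩ := this
        exact ⟨p, hp⟩
      exact (abs_nonneg _).trans (le_dis S hp hp)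
    · refine ⟨graph f, ⟨?_, ?_⟩, rfl⟩
      · rw [eq_univ_iff_forall]
        intro x
        exact ⟨(x, f x), rfl, rfl⟩
      · rw [eq_univ_iff_forall]
        intro y
        obtain ⟨x, hx⟩ := hf y
        exact ⟨(x, f x), rfl, hx⟩
  linarith

theorem exists_map {k l : Fin 3} {S : Set (Sp k × Sp l)} (hS : IsCorrespondence S) {c : ℤ}
    (hc : c < 100) (h : dis S ≤ c) : ∃ f : Fin 4 → Fin 4, S = graph f ∧
      ∀ i j, |D k i j - D l (f i) (f j)| ≤ c := by
  have hex : ∀ i : Sp k, ∃ j : Sp l, (i, j) ∈ S := by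
    intro i
    have : i ∈ Prod.fst '' S := by rw [hS.1]; trivial
    obtain ⟨p, hp, rfl⟩ := this
    exact ⟨p.2, hp⟩
  choose f hf using hex
  have hmain : ∀ p ∈ S, ∀ q ∈ S, |D k p.1 q.1 - D l p.2 q.2| ≤ c := by
    intro p hp q hq
    have := (le_dis S hp hq).trans h
    exact_mod_cast this
  refine ⟨f, ?_, fun i j => hmain _ (hf i) _ (hf j)⟩
  ext p
  constructor
  · intro hp
    by_contra hne
    have hne' : p.2 ≠ f p.1 := hne
    have h1 : |D k p.1 p.1 - D l p.2 (f p.1)| ≤ c := hmain p hp _ (hf p.1)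
    have h2 := D_ne l p.2 (f p.1) hne'
    have h3 := D_self k p.1
    rw [abs_le] at h1
    omega
  · intro hp
    have hp' : p.2 = f p.1 := hp
    have : p = (p.1, f p.1) := Prod.ext rfl hp'
    rw [this]
    exact hf p.1

/-- The involution `(0 1)(2 3)`. -/
def g : Fin 4 → Fin 4 := ![1, 0, 3, 2]

theorem check01 : ∀ a b c d : Fin 4, (∀ i j, |D 0 i j - D 1 (![a, b, c, d] i) (![a, b, c, d] j)| ≤ 3) →
    (a, b, c, d) = (0, 1, 2, 3) := by decide +kernel

theorem check12 : ∀ a b c d : Fin 4, (∀ i j, |D 1 i j - D 2 (![a, b, c, d] i) (![a, b, c, d] j)| ≤ 3) →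
    (a, b, c, d) = (0, 1, 2, 3) := by decide +kernel

theorem check02 : ∀ a b c d : Fin 4, (∀ i j, |D 0 i j - D 2 (![a, b, c, d] i) (![a, b, c, d] j)| ≤ 2) →
    (a, b, c, d) = (1, 0, 3, 2) := by decide +kernel

theorem vec (f : Fin 4 → Fin 4) : f = ![f 0, f 1, f 2, f 3] := by
  funext i; fin_cases i <;> rfl

theorem opt01 {S : Set (Sp 0 × Sp 1)} (hS : IsOptimal S) : S = graph id := by
  have h1 := optimal_le hS id Function.surjective_id 3 (by decide +kernel)
  obtain ⟨f, hf, hd⟩ := exists_map hS.1 (by norm_num) h1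
  rw [vec f] at hd
  have := check01 _ _ _ _ hd
  simp only [Prod.mk.injEq] at this
  have hfi : f = id := by
    rw [vec f, this.1, this.2.1, this.2.2.1, this.2.2.2]
    funext i; fin_cases i <;> rfl
  rw [hf, hfi]

theorem opt12 {S : Set (Sp 1 × Sp 2)} (hS : IsOptimal S) : S = graph id := by
  have h1 := optimal_le hS id Function.surjective_id 3 (by decide +kernel)
  obtain ⟨f, hf, hd⟩ := exists_map hS.1 (by norm_num) h1
  rw [vec f] at hd
  have := check12 _ _ _ _ hd
  simp only [Prod.mk.injEq] at this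
  have hfi : f = id := by
    rw [vec f, this.1, this.2.1, this.2.2.1, this.2.2.2]
    funext i; fin_cases i <;> rfl
  rw [hf, hfi]

theorem opt02 {S : Set (Sp 0 × Sp 2)} (hS : IsOptimal S) : S = graph g := by
  have h1 := optimal_le hS g (by decide +kernel) 2 (by decide +kernel)
  obtain ⟨f, hf, hd⟩ := exists_map hS.1 (by norm_num) h1
  rw [vec f] at hd
  have := check02 _ _ _ _ hd
  simp only [Prod.mk.injEq] at this
  have hfi : f = g := by
    rw [vec f, this.1, this.2.1, this.2.2.1, this.2.2.2]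
    rfl
  rw [hf, hfi]

end spaces

/-- **Negative answer to Q1 of MP_029391_gt.** There are three (four-point) compact metric spaces
`X₁, X₂, X₃` such that no `R ⊆ X₁ × X₂ × X₃` has the property that `e₁₂(R)`, `e₁₃(R)` and `e₂₃(R)`
are optimal correspondences. -/
theorem result : ∃ (X₁ X₂ X₃ : Type) (_ : MetricSpace X₁) (_ : MetricSpace X₂)
    (_ : MetricSpace X₃), CompactSpace X₁ ∧ CompactSpace X₂ ∧ CompactSpace X₃ ∧
    Nonempty X₁ ∧ Nonempty X₂ ∧ Nonempty X₃ ∧
    ¬ ∃ R : Set (X₁ × X₂ × X₃), IsOptimal (e12 R) ∧ IsOptimal (e13 R) ∧ IsOptimal (e23 R) := by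
  refine ⟨Sp 0, Sp 1, Sp 2, inferInstance, inferInstance, inferInstance, Finite.compactSpace,
    Finite.compactSpace, Finite.compactSpace, inferInstance, inferInstance, inferInstance, ?_⟩
  rintro ⟨R, h12, h13, h23⟩
  have e1 := opt01 h12
  have e2 := opt02 h13
  have e3 := opt12 h23
  have hm : (((0 : Fin 4), (1 : Fin 4)) : Sp 0 × Sp 2) ∈ e13 R := by rw [e2]; rfl
  obtain ⟨⟨a, b, c⟩, hR, hr⟩ := hm
  have ha : a = (0 : Fin 4) := congrArg Prod.fst hr
  have hc : c = (1 : Fin 4) := congrArg Prod.snd hr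
  have h1 : ((a, b) : Sp 0 × Sp 1) ∈ e12 R := ⟨(a, b, c), hR, rfl⟩
  have h2 : ((b, c) : Sp 1 × Sp 2) ∈ e23 R := ⟨(a, b, c), hR, rfl⟩
  rw [e1] at h1
  rw [e3] at h2
  have h1' : b = a := h1
  have h2' : c = b := h2
  have : (1 : Fin 4) = 0 := by rw [← hc, h2', h1', ha]
  exact absurd this (by decide)

end Pool.Agent.Results.MP_029391_gt.NoSimultaneous
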